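import Mathlib

set_option autoImplicit false

/-!
Project GP (helper969), job FD (helper321): two sequences with a deep variable, abstract estimates.
-/

namespace Pool.Agent.Y321.GP

open Filter Topology

noncomputable section

/-- the constant -/
def MM (n : ℕ) (q : ℝ) : ℝ := ∑' m : ℕ, ((m : ℝ) + 3) ^ n * q ^ m

lemma MM_summable (n : ℕ) {q : ℝ} (h0 : 0 < q) (h1 : q < 1) :
    Summable (fun m : ℕ => ((m : ℝ) + 3) ^ n * q ^ m) := by
  have h2 := summable_pow_mul_geometric_of_norm_lt_one n (r := q) (by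
    rw [Real.norm_of_nonneg h0.le]; exact h1)
  have h3 := ((summable_nat_add_iff 3).2 h2).mul_left (q ^ 3)⁻¹
  refine h3.congr fun m => ?_
  push_cast
  rw [pow_add]
  field_simp

lemma MM_nonneg (n : ℕ) {q : ℝ} (h0 : 0 ≤ q) : 0 ≤ MM n q := tsum_nonneg fun m => by positivity

/-- a bounded sequence of coefficients -/
structure Cf (n : ℕ) (q Q : ℝ) (A : ℕ → ℂ) : Prop where
  q0 : 0 < q
  q1 : q < 1
  Q0 : 0 ≤ Q
  hQq : Q ≤ q
  A0 : A 0 = 1
  Ab : ∀ m, ‖A m‖ ≤ ((m : ℝ) + 1) ^ n * Q ^ m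

namespace Cf

variable {n : ℕ} {q Q : ℝ} {A : ℕ → ℂ}

lemma le2 (h : Cf n q Q A) (m : ℕ) : ‖A (m + 2)‖ ≤ (((m : ℝ) + 3) ^ n * q ^ m) * Q ^ 2 := by
  refine (h.Ab (m + 2)).trans ?_
  have h0 := h.Q0
  have h1 := h.hQq
  have h2 := h.q0
  rw [pow_add]
  push_cast
  calc _ = (((m : ℝ) + 3) ^ n * Q ^ m) * Q ^ 2 := by ring
    _ ≤ _ := by gcongr

lemma le1 (h : Cf n q Q A) (m : ℕ) : ‖A (m + 1)‖ ≤ (((m : ℝ) + 3) ^ n * q ^ m) * Q := by
  refine (h.Ab (m + 1)).trans ?_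
  have h0 := h.Q0
  have h1 := h.hQq
  have h2 := h.q0
  rw [pow_add]
  push_cast
  have h3 : (m : ℝ) + 1 + 1 ≤ m + 3 := by linarith
  calc _ = (((m : ℝ) + 1 + 1) ^ n * Q ^ m) * Q := by ring
    _ ≤ _ := by gcongr

lemma sm1 (h : Cf n q Q A) : Summable (fun m => ‖A (m + 1)‖) :=
  Summable.of_nonneg_of_le (fun _ => norm_nonneg _) h.le1 ((MM_summable n h.q0 h.q1).mul_right _)

lemma sm2 (h : Cf n q Q A) : Summable (fun m => ‖A (m + 2)‖) :=
  Summable.of_nonneg_of_le (fun _ => norm_nonneg _) h.le2 ((MM_summable n h.q0 h.q1).mul_right _)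

lemma sm (h : Cf n q Q A) : Summable (fun m => ‖A m‖) := (summable_nat_add_iff 1).1 h.sm1

lemma t1 (h : Cf n q Q A) : ∑' m, ‖A (m + 1)‖ ≤ MM n q * Q := by
  unfold MM
  rw [← tsum_mul_right]
  exact h.sm1.tsum_le_tsum h.le1 ((MM_summable n h.q0 h.q1).mul_right _)

lemma t2 (h : Cf n q Q A) : ∑' m, ‖A (m + 2)‖ ≤ MM n q * Q ^ 2 := by
  unfold MM
  rw [← tsum_mul_right]
  exact h.sm2.tsum_le_tsum h.le2 ((MM_summable n h.q0 h.q1).mul_right _)

lemma n1 (h : Cf n q Q A) (m : ℕ) : ‖A (m + 1)‖ ≤ MM n q * Q :=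
  (h.sm1.le_tsum m fun _ _ => norm_nonneg _).trans h.t1

/-- the sum of the `A m` times bounded terms -/
lemma bd2 (h : Cf n q Q A) {w : ℕ → ℂ} {D : ℝ} (hw : ∀ m, ‖w m‖ ≤ D) :
    Summable (fun m => A (m + 2) * w (m + 2)) ∧ ‖∑' m, A (m + 2) * w (m + 2)‖ ≤ MM n q * Q ^ 2 * D := by
  have hD : 0 ≤ D := (norm_nonneg _).trans (hw 0)
  have h1 : ∀ m, ‖A (m + 2) * w (m + 2)‖ ≤ ‖A (m + 2)‖ * D := fun m => by
    rw [norm_mul]
    have := hw (m + 2)
    gcongr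
  have h2 : Summable (fun m => ‖A (m + 2) * w (m + 2)‖) :=
    Summable.of_nonneg_of_le (fun _ => norm_nonneg _) h1 (h.sm2.mul_right D)
  refine ⟨h2.of_norm, (norm_tsum_le_tsum_norm h2).trans ?_⟩
  refine (h2.tsum_le_tsum h1 (h.sm2.mul_right D)).trans ?_
  rw [tsum_mul_right]
  exact mul_le_mul_of_nonneg_right h.t2 hD

lemma smw (h : Cf n q Q A) {w : ℕ → ℂ} {D : ℝ} (hw : ∀ m, ‖w m‖ ≤ D) :
    Summable (fun m => A m * w m) := (summable_nat_add_iff 2).1 (h.bd2 hw).1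

lemma split (h : Cf n q Q A) {w : ℕ → ℂ} {D : ℝ} (hw : ∀ m, ‖w m‖ ≤ D) :
    ∑' m, A m * w m = w 0 + A 1 * w 1 + ∑' m, A (m + 2) * w (m + 2) := by
  rw [← (h.smw hw).sum_add_tsum_nat_add 2, Finset.sum_range_succ, Finset.sum_range_one, h.A0, one_mul]

/-- the generating function at `y` -/
lemma gf (h : Cf n q Q A) {y : ℂ} (hy : ‖y‖ ≤ 1) :
    ‖∑' m, A m * y ^ m - 1 - A 1 * y‖ ≤ MM n q * Q ^ 2 ∧ ‖∑' m, A m * y ^ m - 1‖ ≤ MM n q * Q := by
  have hw : ∀ m, ‖y ^ m‖ ≤ 1 := fun m => by rw [norm_pow]; exact pow_le_one₀ (norm_nonneg _) hy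
  constructor
  · rw [h.split hw]
    have := (h.bd2 hw).2
    rw [mul_one] at this
    convert this using 2
    rw [pow_zero, pow_one]; ring
  · have h1 := (h.smw hw).sum_add_tsum_nat_add 1
    rw [Finset.sum_range_one, h.A0, one_mul, pow_zero] at h1
    rw [← h1, add_sub_cancel_left]
    have h2 : ∀ m, ‖A (m + 1) * y ^ (m + 1)‖ ≤ ‖A (m + 1)‖ := fun m => by
      rw [norm_mul]
      exact mul_le_of_le_one_right (norm_nonneg _) (hw _)
    exact (tsum_of_norm_bounded h.sm1.hasSum h2).trans h.t1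

end Cf

/-- the deep recursion -/
structure Dp (x : ℂ) (A u : ℕ → ℂ) : Prop where
  x1 : ‖x‖ ≤ 1
  u0 : u 0 = 1
  us : ∀ m, u (m + 1) = x * u m + A (m + 1)

lemma Dp.w {n : ℕ} {q Q : ℝ} {A u : ℕ → ℂ} {x : ℂ} (h : Cf n q Q A) (d : Dp x A u) (m : ℕ) :
    ‖u m - x ^ m‖ ≤ MM n q * Q := by
  have h1 : ∀ m, ‖u m - x ^ m‖ ≤ ∑ i ∈ Finset.range m, ‖A (i + 1)‖ := by
    intro m
    induction m with
    | zero => rw [d.u0]; simp
    | succ m ih =>
      rw [Finset.sum_range_succ, d.us]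
      have e : x * u m + A (m + 1) - x ^ (m + 1) = x * (u m - x ^ m) + A (m + 1) := by ring
      rw [e]
      refine (norm_add_le _ _).trans ?_
      rw [norm_mul]
      have := mul_le_of_le_one_left (norm_nonneg (u m - x ^ m)) d.x1
      linarith
  exact (h1 m).trans ((h.sm1.sum_le_tsum _ fun _ _ => norm_nonneg _).trans h.t1)

/-- the main estimate for the series -/
theorem main_series {n : ℕ} {q Q : ℝ} {A B u v : ℕ → ℂ} {x y : ℂ} (hA : Cf n q Q A) (hB : Cf n q Q B)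
    (hu : Dp x A u) (hv : Dp y B v) (hs : Summable (fun m => u m * v m)) :
    ‖(1 - x * y) * ∑' m, u m * v m - ((∑' m, A m * y ^ m) * (∑' m, B m * x ^ m) +
      A 1 * B 1 * (1 - x * y))‖ ≤ 5 * (MM n q) ^ 2 * Q ^ 3 := by
  set M := MM n q with hM
  have hM0 : 0 ≤ M := MM_nonneg n hA.q0.le
  have hQ0 := hA.Q0
  have hx : ∀ m, ‖x ^ m‖ ≤ 1 := fun m => by
    rw [norm_pow]; exact pow_le_one₀ (norm_nonneg _) hu.x1
  have hy : ∀ m, ‖y ^ m‖ ≤ 1 := fun m => by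
    rw [norm_pow]; exact pow_le_one₀ (norm_nonneg _) hv.x1
  have hwu := hu.w hA
  have hwv := hv.w hB
  rw [← hM] at hwu hwv
  -- the shifted sequence
  have hB' : ∀ m, ‖(fun m => if m = 0 then (0:ℂ) else B m) m‖ ≤ M * Q := by
    intro m
    rcases m with _ | m
    · simp; positivity
    · simpa using hB.n1 m
  set B' : ℕ → ℂ := fun m => if m = 0 then (0:ℂ) else B m with hB'd
  -- the identity
  have e1 : (1 - x * y) * ∑' m, u m * v m = ∑' m, (A m * v m + u m * B m - A m * B m) := by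
    have hs1 : Summable (fun m => u (m + 1) * v (m + 1)) :=
      (summable_nat_add_iff (f := fun m => u m * v m) 1).2 hs
    have hG1 : (fun m => (A (m + 1) * v (m + 1) + u (m + 1) * B (m + 1) - A (m + 1) * B (m + 1))) =
        fun m => u (m + 1) * v (m + 1) - x * y * (u m * v m) := by
      funext m
      have h1 := hu.us m
      have h2 := hv.us m
      rw [h1, h2]; ring
    have hG2 : Summable (fun m => (A (m + 1) * v (m + 1) + u (m + 1) * B (m + 1) -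
        A (m + 1) * B (m + 1))) := by
      rw [hG1]; exact hs1.sub (hs.mul_left _)
    have hG3 : Summable (fun m => (A m * v m + u m * B m - A m * B m)) :=
      (summable_nat_add_iff (f := fun m => (A m * v m + u m * B m - A m * B m)) 1).1 hG2
    rw [hG3.tsum_eq_zero_add, hG1, hs1.tsum_sub (hs.mul_left _), tsum_mul_left]
    have h3 := hs.tsum_eq_zero_add
    rw [hu.u0, hv.u0] at h3
    rw [hu.u0, hv.u0, hA.A0, hB.A0]
    linear_combination h3
  -- decomposition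
  have hvb : ∀ m, ‖v m‖ ≤ 1 + M * Q := fun m => by
    have := norm_add_le (y ^ m) (v m - y ^ m)
    rw [add_sub_cancel] at this
    linarith [hy m, hwv m]
  have hub : ∀ m, ‖u m‖ ≤ 1 + M * Q := fun m => by
    have := norm_add_le (x ^ m) (u m - x ^ m)
    rw [add_sub_cancel] at this
    linarith [hx m, hwu m]
  have sA1 := hA.smw hy
  have sB1 := hB.smw hx
  have sA2 := hA.smw hwv
  have sB2 := hB.smw hwu
  have sA3 := hA.smw hB'
  have e2 : ∑' m, (A m * v m + u m * B m - A m * B m) =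
      ((∑' m, A m * y ^ m) + ∑' m, B m * x ^ m) +
      (((∑' m, A m * (v m - y ^ m)) + ∑' m, B m * (u m - x ^ m)) - ∑' m, A m * B' m) - 1 := by
    have e3 : (fun m => (A m * v m + u m * B m - A m * B m)) = fun m =>
        ((A m * y ^ m + B m * x ^ m) + ((A m * (v m - y ^ m) + B m * (u m - x ^ m)) - A m * B' m)) -
          (if m = 0 then 1 else 0) := by
      funext m
      rcases m with _ | m
      · simp [hB'd, hA.A0, hB.A0, hu.u0, hv.u0]
      · simp only [hB'd, Nat.succ_ne_zero, if_false]; ring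
    have sd : HasSum (fun m : ℕ => (if m = 0 then (1:ℂ) else 0)) 1 := hasSum_ite_eq 0 1
    rw [e3, (((sA1.add sB1).add ((sA2.add sB2).sub sA3))).tsum_sub sd.summable, sd.tsum_eq,
      (sA1.add sB1).tsum_add ((sA2.add sB2).sub sA3), sA1.tsum_add sB1,
      (sA2.add sB2).tsum_sub sA3, sA2.tsum_add sB2]
  set α := ∑' m, A m * y ^ m with hα
  set β := ∑' m, B m * x ^ m with hβ
  have r1 := (hA.bd2 hwv).2
  have r2 := (hB.bd2 hwu).2
  have r3 := (hA.bd2 hB').2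
  set R1 := ∑' m, A (m + 2) * (v (m + 2) - y ^ (m + 2)) with hR1
  set R2 := ∑' m, B (m + 2) * (u (m + 2) - x ^ (m + 2)) with hR2
  set R3 := ∑' m, A (m + 2) * B' (m + 2) with hR3
  have s1 : ∑' m, A m * (v m - y ^ m) = A 1 * B 1 + R1 := by
    rw [hA.split hwv, ← hR1, hv.u0, hv.us 0, hv.u0]; ring
  have s2 : ∑' m, B m * (u m - x ^ m) = A 1 * B 1 + R2 := by
    rw [hB.split hwu, ← hR2, hu.u0, hu.us 0, hu.u0]; ring
  have s3 : ∑' m, A m * B' m = A 1 * B 1 + R3 := by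
    rw [hA.split hB', ← hR3]; simp [hB'd]
  obtain ⟨a1, a2⟩ := hA.gf hv.x1
  obtain ⟨b1, b2⟩ := hB.gf hu.x1
  rw [← hα, ← hM] at a1 a2
  rw [← hβ, ← hM] at b1 b2
  rw [← hM] at r1 r2 r3
  have c1 : ‖(α - 1 - A 1 * y) * (β - 1)‖ ≤ (M * Q ^ 2) * (M * Q) := by
    rw [norm_mul]; gcongr
  have c2 : ‖A 1 * y * (β - 1 - B 1 * x)‖ ≤ (M * Q) * (M * Q ^ 2) := by
    rw [norm_mul, norm_mul]
    have h1 := hA.n1 0
    have h2 : ‖A 1‖ * ‖y‖ ≤ M * Q := (mul_le_of_le_one_right (norm_nonneg _) hv.x1).trans h1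
    gcongr
  rw [e1, e2, s1, s2, s3]
  have e4 : α + β + (A 1 * B 1 + R1 + (A 1 * B 1 + R2) - (A 1 * B 1 + R3)) - 1 -
      (α * β + A 1 * B 1 * (1 - x * y)) =
      R1 + R2 - R3 - (α - 1 - A 1 * y) * (β - 1) - A 1 * y * (β - 1 - B 1 * x) := by ring
  rw [e4]
  have f1 := norm_sub_le (R1 + R2 - R3 - (α - 1 - A 1 * y) * (β - 1)) (A 1 * y * (β - 1 - B 1 * x))
  have f2 := norm_sub_le (R1 + R2 - R3) ((α - 1 - A 1 * y) * (β - 1))
  have f3 := norm_sub_le (R1 + R2) R3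
  have f4 := norm_add_le R1 R2
  calc _ ≤ M * Q ^ 2 * (M * Q) + M * Q ^ 2 * (M * Q) + M * Q ^ 2 * (M * Q) +
        (M * Q ^ 2) * (M * Q) + (M * Q) * (M * Q ^ 2) := by linarith
    _ = _ := by ring

end

end Pool.Agent.Y321.GP
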