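import Pool.Agent.Y969.GP.Def2
import Pool.Agent.Y321.GP.Seq

set_option autoImplicit false

/-!
Project GP (helper969), job FD (helper321): the local factors with one deep variable.
-/

namespace Pool.Agent.Y321.GP

open Complex Filter Topology MeasureTheory Set
open Pool.Agent.W182.KO
open Pool.Agent.TH612.CF
open Pool.Agent.Y969.GP (Tj S_FD)

noncomputable section

lemma tau_pp_eq {k : ℕ} (l : Fin (k + 1) → ℂ) {p : ℕ} (hp : p.Prime) (m : ℕ) :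
    tau l (p ^ m) = ∑ e ∈ Finset.range (m + 1),
      ((p ^ e : ℕ) : ℂ) ^ (l 0) * tau (fun j => l j.succ) (p ^ m / p ^ e) := by
  rw [tau_succ, Nat.sum_divisorsAntidiagonal
    (fun a b => (a : ℂ) ^ (l 0) * tau (fun j => l j.succ) b), Nat.divisors_prime_pow hp,
    Finset.sum_map]
  rfl

lemma tau_pp_succ {k : ℕ} (l : Fin (k + 1) → ℂ) {p : ℕ} (hp : p.Prime) (m : ℕ) :
    tau l (p ^ (m + 1)) = (p : ℂ) ^ (l 0) * tau l (p ^ m) + tau (fun j => l j.succ) (p ^ (m + 1)) := by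
  rw [tau_pp_eq l hp (m + 1), Finset.sum_range_succ', tau_pp_eq l hp m, Finset.mul_sum]
  congr 1
  · refine Finset.sum_congr rfl fun e _ => ?_
    have h1 : p ^ (m + 1) / p ^ (e + 1) = p ^ m / p ^ e := by
      rw [pow_succ, pow_succ, Nat.mul_div_mul_right _ _ hp.pos]
    rw [h1, pow_succ, Nat.cast_mul, Complex.natCast_mul_natCast_cpow]
    ring
  · simp

/-- coefficients with all variables small -/
lemma cf_tau {n : ℕ} {l : Fin n → ℂ} {c : ℝ} (hc : c < 0) (hl : ∀ j, (l j).re ≤ c) {p : ℕ}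
    (hp : p.Prime) : Cf n ((2 : ℝ) ^ c) ((p : ℝ) ^ c) (fun m => tau l (p ^ m)) where
  q0 := by positivity
  q1 := Real.rpow_lt_one_of_one_lt_of_neg (by norm_num) hc
  Q0 := by positivity
  hQq := Real.rpow_le_rpow_of_nonpos (by norm_num) (by exact_mod_cast hp.two_le) hc.le
  A0 := by simp only [pow_zero]; exact tau_one l
  Ab := fun m => tau_pp_le hl hp m

lemma norm_pc {p : ℕ} (hp : p.Prime) (s : ℂ) {c : ℝ} (hs : s.re ≤ c) :
    ‖(p : ℂ) ^ s‖ ≤ (p : ℝ) ^ c := by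
  rw [Complex.norm_natCast_cpow_of_pos hp.pos]
  exact Real.rpow_le_rpow_of_exponent_le (by exact_mod_cast hp.one_lt.le) hs

/-- the generating function -/
lemma gf_tau {p : ℕ} (hp : p.Prime) {z : ℂ} (hz : ‖z‖ ≤ 1) {c : ℝ} (hc : c < 0) :
    ∀ {n : ℕ} (l : Fin n → ℂ), (∀ j, (l j).re ≤ c) →
      (∑' m, tau l (p ^ m) * z ^ m) * ∏ j, (1 - (p : ℂ) ^ (l j) * z) = 1
  | 0, l, _ => by
      have h1 : ∀ m : ℕ, tau l (p ^ m) * z ^ m = if m = 0 then 1 else 0 := by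
        intro m
        rw [tau_nil]
        rcases m with _ | m
        · simp
        · have : p ^ (m + 1) ≠ 1 := (Nat.one_lt_pow (Nat.succ_ne_zero m) hp.one_lt).ne'
          rw [if_neg this, if_neg (Nat.succ_ne_zero m), zero_mul]
      simp only [h1, tsum_ite_eq, Finset.univ_eq_empty, Finset.prod_empty, mul_one]
  | n + 1, l, hl => by
      have hw : ∀ m, ‖z ^ m‖ ≤ 1 := fun m => by
        rw [norm_pow]; exact pow_le_one₀ (norm_nonneg _) hz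
      have s1 := (cf_tau hc hl hp).smw hw
      have s2 := (cf_tau hc (fun j => hl j.succ) hp).smw hw
      have ih := gf_tau hp hz hc (fun j => l j.succ) (fun j => hl j.succ)
      have s1' := (summable_nat_add_iff (f := fun m => tau l (p ^ m) * z ^ m) 1).2 s1
      have s2' := (summable_nat_add_iff
        (f := fun m => tau (fun j => l j.succ) (p ^ m) * z ^ m) 1).2 s2
      have t1 := s1.tsum_eq_zero_add
      have t2 := s2.tsum_eq_zero_add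
      have e1 : (fun m => tau l (p ^ (m + 1)) * z ^ (m + 1)) = fun m =>
          ((p : ℂ) ^ (l 0) * z) * (tau l (p ^ m) * z ^ m) +
            tau (fun j => l j.succ) (p ^ (m + 1)) * z ^ (m + 1) := by
        funext m
        rw [tau_pp_succ l hp m]; ring
      rw [e1, (s1.mul_left _).tsum_add s2', tsum_mul_left] at t1
      simp only [pow_zero, tau_one, mul_one] at t1 t2
      rw [Fin.prod_univ_succ]
      have e2 : (∑' m, tau l (p ^ m) * z ^ m) * (1 - (p : ℂ) ^ (l 0) * z) =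
          ∑' m, tau (fun j => l j.succ) (p ^ m) * z ^ m := by
        linear_combination t1 - t2
      rw [← mul_assoc, e2]
      exact ih

/-- algebra and size of the final product -/
lemma final_le {α β c z E E2 P1 P2 L : ℂ} {M N N2 Q : ℝ} (hM : 0 ≤ M) (hN : 1 ≤ N) (hN2 : 0 ≤ N2)
    (hQ0 : 0 ≤ Q) (hQ1 : Q ≤ 1) (h1 : α * P1 = 1) (h2 : β * P2 = 1)
    (hL : L = (α * β + c * (1 - z) + E) * (P1 * P2) * (1 - c + E2))
    (hc : ‖c‖ ≤ M ^ 2 * Q ^ 2) (hz : ‖z‖ ≤ 1) (hE : ‖E‖ ≤ 5 * M ^ 2 * Q ^ 3)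
    (hE2 : ‖E2‖ ≤ N2 * Q ^ 4) (hP1 : ‖P1 - 1‖ ≤ (N - 1) * Q) (hP2 : ‖P2 - 1‖ ≤ (N - 1) * Q) :
    ‖L - 1‖ ≤ M ^ 2 * Q ^ 2 * ‖z‖ +
      (9 * M ^ 2 * N ^ 2 + N2 + 7 * (M ^ 2 + N2) * M ^ 2 * N ^ 2) * Q ^ 3 := by
  have nP : ∀ P : ℂ, ‖P - 1‖ ≤ (N - 1) * Q → ‖P‖ ≤ N := by
    intro P hP
    have := norm_add_le (P - 1) 1
    rw [sub_add_cancel, norm_one] at this
    nlinarith
  have n1 := nP P1 hP1
  have n2 := nP P2 hP2
  set P := P1 * P2 with hPd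
  have hP : ‖P‖ ≤ N ^ 2 := by
    rw [hPd, norm_mul, sq]; gcongr
  have hPm : ‖P - 1‖ ≤ 2 * N ^ 2 * Q := by
    have e : P - 1 = (P1 - 1) * P2 + (P2 - 1) := by rw [hPd]; ring
    rw [e]
    refine (norm_add_le _ _).trans ?_
    rw [norm_mul]
    have k1 : ‖P1 - 1‖ * ‖P2‖ ≤ ((N - 1) * Q) * N := by
      have : 0 ≤ (N - 1) * Q := mul_nonneg (by linarith) hQ0
      gcongr
    have k2 : ((N - 1) * Q) * N + (N - 1) * Q ≤ 2 * N ^ 2 * Q := by
      have : (N - 1) * N + (N - 1) ≤ 2 * N ^ 2 := by nlinarith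
      calc _ = ((N - 1) * N + (N - 1)) * Q := by ring
        _ ≤ _ := by gcongr
    linarith
  have hz1 : ‖1 - z‖ ≤ 2 := by
    have := norm_sub_le (1:ℂ) z
    rw [norm_one] at this
    linarith
  have q3 : Q ^ 4 ≤ Q ^ 3 := pow_le_pow_of_le_one hQ0 hQ1 (by norm_num)
  have q2 : Q ^ 3 ≤ Q ^ 2 := pow_le_pow_of_le_one hQ0 hQ1 (by norm_num)
  have q42 : Q ^ 4 ≤ Q ^ 2 := q3.trans q2
  have e1 : L - 1 = -(c * z) + c * (1 - z) * (P - 1) + E * P + E2 -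
      (c - E2) * (c * (1 - z) * P + E * P) := by
    rw [hL]
    have h3 : α * β * P = 1 := by
      rw [hPd]; linear_combination β * P2 * h1 + h2
    linear_combination (1 - c + E2) * h3
  have b1 : ‖c * z‖ ≤ M ^ 2 * Q ^ 2 * ‖z‖ := by rw [norm_mul]; gcongr
  have b2 : ‖c * (1 - z) * (P - 1)‖ ≤ M ^ 2 * Q ^ 2 * 2 * (2 * N ^ 2 * Q) := by
    rw [norm_mul, norm_mul]; gcongr
  have b3 : ‖E * P‖ ≤ 5 * M ^ 2 * Q ^ 3 * N ^ 2 := by rw [norm_mul]; gcongr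
  have b4 : ‖c - E2‖ ≤ (M ^ 2 + N2) * Q ^ 2 := by
    have k1 := norm_sub_le c E2
    have k2 : N2 * Q ^ 4 ≤ N2 * Q ^ 2 := by gcongr
    linarith
  have b5 : ‖c * (1 - z) * P + E * P‖ ≤ 7 * M ^ 2 * N ^ 2 * Q ^ 2 := by
    have k1 := norm_add_le (c * (1 - z) * P) (E * P)
    have k2 : ‖c * (1 - z) * P‖ ≤ M ^ 2 * Q ^ 2 * 2 * N ^ 2 := by
      rw [norm_mul, norm_mul]; gcongr
    have k3 : 5 * M ^ 2 * Q ^ 3 * N ^ 2 ≤ 5 * M ^ 2 * Q ^ 2 * N ^ 2 := by gcongr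
    linarith
  have b6 : ‖(c - E2) * (c * (1 - z) * P + E * P)‖ ≤
      7 * (M ^ 2 + N2) * M ^ 2 * N ^ 2 * Q ^ 3 := by
    rw [norm_mul]
    calc _ ≤ ((M ^ 2 + N2) * Q ^ 2) * (7 * M ^ 2 * N ^ 2 * Q ^ 2) := by gcongr
      _ = 7 * (M ^ 2 + N2) * M ^ 2 * N ^ 2 * Q ^ 4 := by ring
      _ ≤ _ := by gcongr
  have b7 : ‖E2‖ ≤ N2 * Q ^ 3 := hE2.trans (by gcongr)
  rw [e1]
  have g1 := norm_sub_le (-(c * z) + c * (1 - z) * (P - 1) + E * P + E2)
    ((c - E2) * (c * (1 - z) * P + E * P))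
  have g2 := norm_add_le (-(c * z) + c * (1 - z) * (P - 1) + E * P) E2
  have g3 := norm_add_le (-(c * z) + c * (1 - z) * (P - 1)) (E * P)
  have g4 := norm_add_le (-(c * z)) (c * (1 - z) * (P - 1))
  rw [norm_neg] at g4
  calc _ ≤ M ^ 2 * Q ^ 2 * ‖z‖ + M ^ 2 * Q ^ 2 * 2 * (2 * N ^ 2 * Q) + 5 * M ^ 2 * Q ^ 3 * N ^ 2 +
        N2 * Q ^ 3 + 7 * (M ^ 2 + N2) * M ^ 2 * N ^ 2 * Q ^ 3 := by linarith
    _ = _ := by ring

/-- the constant of the local estimate -/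
def KK (n : ℕ) (c : ℝ) : ℝ :=
  (9 * (MM n ((2 : ℝ) ^ c)) ^ 2 * ((2 : ℝ) ^ n) ^ 2 + 2 ^ (n * n) +
    7 * ((MM n ((2 : ℝ) ^ c)) ^ 2 + 2 ^ (n * n)) * (MM n ((2 : ℝ) ^ c)) ^ 2 * ((2 : ℝ) ^ n) ^ 2)

lemma lt_eq {k : ℕ} (a b : Fin k → ℂ) {p : ℕ} (hp : p.Prime) (m : ℕ) :
    lt a b p m = tau (fun j => -(I * a j) + -(1 / 2)) (p ^ m) *
      tau (fun j => I * b j + -(1 / 2)) (p ^ m) := by
  rw [tau_shift, tau_shift]
  unfold lt
  have h0 : ((p ^ m : ℕ) : ℂ) ≠ 0 := by exact_mod_cast (pow_pos hp.pos m).ne'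
  have h1 : ((p ^ m : ℕ) : ℂ) ^ (-(1 / 2) : ℂ) * ((p ^ m : ℕ) : ℂ) ^ (-(1 / 2) : ℂ) =
      ((p : ℂ) ^ m)⁻¹ := by
    rw [← Complex.cpow_add _ _ h0]
    norm_num
    rw [Complex.cpow_neg_one]
  rw [← h1]; ring

theorem lh_zero {n : ℕ} {a b : Fin (n + 1) → ℂ} {σ η : ℝ} (hη : η < 1 / 2) (hση : η ≤ σ)
    (hσ : σ < 1 / 2) (h : Tj 0 σ η a b) {p : ℕ} (hp : p.Prime) :
    ‖lh a b p - 1‖ ≤ (MM n ((2 : ℝ) ^ (η - 1 / 2))) ^ 2 * (p : ℝ) ^ (2 * η + 2 * σ - 2) +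
      KK n (η - 1 / 2) * (p : ℝ) ^ (3 * η - 3 / 2) := by
  obtain ⟨ha0, hb0, hab⟩ := h
  have hp0 : (0:ℝ) < p := by exact_mod_cast hp.pos
  have hpc : (p : ℂ) ≠ 0 := by exact_mod_cast hp.ne_zero
  have hT : Tb σ a b := by
    intro i
    by_cases hi : i = 0
    · subst hi; exact ⟨ha0, hb0⟩
    · exact ⟨(hab i hi).1.trans hση, (hab i hi).2.trans hση⟩
  set c : ℝ := η - 1 / 2 with hc
  have hc0 : c < 0 := by rw [hc]; linarith
  set X : Fin (n + 1) → ℂ := fun j => -(I * a j) + -(1 / 2) with hX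
  set Y : Fin (n + 1) → ℂ := fun j => I * b j + -(1 / 2) with hY
  have hXre : ∀ j, (X j).re = (a j).im - 1 / 2 := fun j => by simp [hX]; ring
  have hYre : ∀ j, (Y j).re = -(b j).im - 1 / 2 := fun j => by simp [hY]; ring
  have hX0 : (X 0).re ≤ σ - 1 / 2 := by
    rw [hXre]; linarith [le_abs_self (a 0).im]
  have hY0 : (Y 0).re ≤ σ - 1 / 2 := by
    rw [hYre]; linarith [neg_le_abs (b 0).im]
  have hX' : ∀ j : Fin n, (X j.succ).re ≤ c := fun j => by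
    rw [hXre, hc]; linarith [le_abs_self (a j.succ).im, (hab j.succ (Fin.succ_ne_zero j)).1]
  have hY' : ∀ j : Fin n, (Y j.succ).re ≤ c := fun j => by
    rw [hYre, hc]; linarith [neg_le_abs (b j.succ).im, (hab j.succ (Fin.succ_ne_zero j)).2]
  set xs : Fin (n + 1) → ℂ := fun j => (p : ℂ) ^ (X j) with hxs
  set ys : Fin (n + 1) → ℂ := fun j => (p : ℂ) ^ (Y j) with hys
  set Q : ℝ := (p : ℝ) ^ c with hQ
  have hx0 : ‖xs 0‖ ≤ (p : ℝ) ^ (σ - 1 / 2) := norm_pc hp _ hX0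
  have hy0 : ‖ys 0‖ ≤ (p : ℝ) ^ (σ - 1 / 2) := norm_pc hp _ hY0
  have hs1 : (p : ℝ) ^ (σ - 1 / 2) ≤ 1 :=
    Real.rpow_le_one_of_one_le_of_nonpos (by exact_mod_cast hp.one_lt.le) (by linarith)
  have hx1 : ‖xs 0‖ ≤ 1 := hx0.trans hs1
  have hy1 : ‖ys 0‖ ≤ 1 := hy0.trans hs1
  have hxQ : ∀ j : Fin n, ‖xs j.succ‖ ≤ Q := fun j => norm_pc hp _ (hX' j)
  have hyQ : ∀ j : Fin n, ‖ys j.succ‖ ≤ Q := fun j => norm_pc hp _ (hY' j)
  have hQ0 : 0 ≤ Q := by positivity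
  have hQ1 : Q ≤ 1 := Real.rpow_le_one_of_one_le_of_nonpos (by exact_mod_cast hp.one_lt.le) hc0.le
  have cA := cf_tau hc0 hX' hp
  have cB := cf_tau hc0 hY' hp
  rw [← hQ] at cA cB
  have dA : Dp (xs 0) (fun m => tau (fun j => X j.succ) (p ^ m)) (fun m => tau X (p ^ m)) :=
    ⟨hx1, by simp only [pow_zero]; exact tau_one X, fun m => tau_pp_succ X hp m⟩
  have dB : Dp (ys 0) (fun m => tau (fun j => Y j.succ) (p ^ m)) (fun m => tau Y (p ^ m)) :=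
    ⟨hy1, by simp only [pow_zero]; exact tau_one Y, fun m => tau_pp_succ Y hp m⟩
  have hsum : Summable (fun m => tau X (p ^ m) * tau Y (p ^ m)) := by
    refine (lt_summable_norm hσ hT hp).of_norm.congr fun m => ?_
    rw [lt_eq a b hp m]
  have hmain := main_series cA cB dA dB hsum
  simp only [pow_one] at hmain
  set S := ∑' m, tau X (p ^ m) * tau Y (p ^ m) with hS
  have hgA := gf_tau hp hy1 hc0 (fun j => X j.succ) hX'
  have hgB := gf_tau hp hx1 hc0 (fun j => Y j.succ) hY'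
  set α := ∑' m, tau (fun j => X j.succ) (p ^ m) * (ys 0) ^ m with hα
  set β := ∑' m, tau (fun j => Y j.succ) (p ^ m) * (xs 0) ^ m with hβ
  have hA1 : tau (fun j => X j.succ) p = ∑ j : Fin n, xs j.succ := tau_prime _ hp
  have hB1 : tau (fun j => Y j.succ) p = ∑ j : Fin n, ys j.succ := tau_prime _ hp
  set A1 := tau (fun j => X j.succ) p with hA1d
  set B1 := tau (fun j => Y j.succ) p with hB1d
  set M := MM n ((2 : ℝ) ^ c) with hM
  have hM0 : 0 ≤ M := MM_nonneg n (by positivity)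
  have nA1 : ‖A1‖ ≤ M * Q := by
    have := cA.n1 0
    simpa using this
  have nB1 : ‖B1‖ ≤ M * Q := by
    have := cB.n1 0
    simpa using this
  -- the products
  set P1 : ℂ := ∏ j : Fin n, (1 - xs j.succ * ys 0) with hP1
  set P2 : ℂ := ∏ j : Fin n, (1 - ys j.succ * xs 0) with hP2
  set W : ℂ := ∏ w : Fin n × Fin n, (1 - xs w.1.succ * ys w.2.succ) with hW
  have bP1 : ‖P1 - 1‖ ≤ (2 ^ n - 1) * Q := by
    have h1 := (prod_one_sub_le (Finset.univ : Finset (Fin n)) (fun j => xs j.succ * ys 0) hQ0 hQ1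
      fun j _ => by
        rw [norm_mul]
        exact (mul_le_of_le_one_right (norm_nonneg _) hy1).trans (hxQ j)).1
    rwa [Finset.card_univ, Fintype.card_fin] at h1
  have bP2 : ‖P2 - 1‖ ≤ (2 ^ n - 1) * Q := by
    have h1 := (prod_one_sub_le (Finset.univ : Finset (Fin n)) (fun j => ys j.succ * xs 0) hQ0 hQ1
      fun j _ => by
        rw [norm_mul]
        exact (mul_le_of_le_one_right (norm_nonneg _) hx1).trans (hyQ j)).1
    rwa [Finset.card_univ, Fintype.card_fin] at h1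
  have bW : ‖W - (1 - A1 * B1)‖ ≤ 2 ^ (n * n) * Q ^ 4 := by
    have h1 := (prod_one_sub_le (Finset.univ : Finset (Fin n × Fin n))
      (fun w => xs w.1.succ * ys w.2.succ) (r := Q ^ 2) (by positivity) (pow_le_one₀ hQ0 hQ1)
      fun w _ => by
        rw [norm_mul, sq]
        have := hxQ w.1
        have := hyQ w.2
        gcongr).2
    rw [Finset.card_univ, Fintype.card_prod, Fintype.card_fin] at h1
    have h2 : ∑ w : Fin n × Fin n, xs w.1.succ * ys w.2.succ = A1 * B1 := by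
      rw [hA1, hB1, Finset.sum_mul_sum, Fintype.sum_prod_type]
    rw [h2] at h1
    refine h1.trans (le_of_eq ?_)
    ring
  have hlh : lh a b p = ((1 - xs 0 * ys 0) * S) * (P1 * P2) * W := by
    unfold lh
    have e1 : ∑' m : ℕ, lt a b p m = S := tsum_congr fun m => lt_eq a b hp m
    have e2 : ∀ j l, (1 - (p : ℂ) ^ (-(1 + I * a j - I * b l))) = 1 - xs j * ys l := by
      intro j l
      have e3 : -(1 + I * a j - I * b l) = X j + Y l := by simp only [hX, hY]; ring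
      rw [e3, Complex.cpow_add _ _ hpc]
    rw [e1]
    simp only [e2]
    rw [Fin.prod_univ_succ, Fin.prod_univ_succ]
    have e4 : ∀ j : Fin n, ∏ l : Fin (n + 1), (1 - xs j.succ * ys l) =
        (1 - xs j.succ * ys 0) * ∏ l : Fin n, (1 - xs j.succ * ys l.succ) := fun j =>
      Fin.prod_univ_succ _
    simp only [e4]
    rw [Finset.prod_mul_distrib, hW, Fintype.prod_prod_type, hP1, hP2]
    have e5 : ∏ j : Fin n, (1 - xs 0 * ys j.succ) = ∏ j : Fin n, (1 - ys j.succ * xs 0) :=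
      Finset.prod_congr rfl fun j _ => by ring
    rw [e5]
    ring
  have hz : ‖xs 0 * ys 0‖ ≤ (p : ℝ) ^ (2 * σ - 1) := by
    rw [norm_mul]
    calc _ ≤ (p : ℝ) ^ (σ - 1 / 2) * (p : ℝ) ^ (σ - 1 / 2) := by gcongr
      _ = _ := by rw [← Real.rpow_add hp0]; congr 1; ring
  have hz1 : ‖xs 0 * ys 0‖ ≤ 1 := by
    rw [norm_mul]; exact mul_le_one₀ hx1 (norm_nonneg _) hy1
  have hfin := final_le (α := α) (β := β) (c := A1 * B1) (z := xs 0 * ys 0)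
    (E := (1 - xs 0 * ys 0) * S - (α * β + A1 * B1 * (1 - xs 0 * ys 0)))
    (E2 := W - (1 - A1 * B1)) (P1 := P1) (P2 := P2) (L := lh a b p) (M := M) (N := 2 ^ n)
    (N2 := 2 ^ (n * n)) (Q := Q) hM0 (one_le_pow₀ (by norm_num)) (by positivity) hQ0 hQ1 hgA hgB
    (by rw [hlh]; ring)
    (by
      rw [norm_mul]
      calc _ ≤ (M * Q) * (M * Q) := by gcongr
        _ = _ := by ring)
    hz1 hmain bW bP1 bP2
  refine hfin.trans ?_
  have f1 : Q ^ 2 * (p : ℝ) ^ (2 * σ - 1) = (p : ℝ) ^ (2 * η + 2 * σ - 2) := by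
    rw [hQ, ← Real.rpow_natCast, ← Real.rpow_mul hp0.le, ← Real.rpow_add hp0]
    congr 1; rw [hc]; push_cast; ring
  have f2 : Q ^ 3 = (p : ℝ) ^ (3 * η - 3 / 2) := by
    rw [hQ, ← Real.rpow_natCast, ← Real.rpow_mul hp0.le]
    congr 1; rw [hc]; push_cast; ring
  rw [← f1, ← f2]
  unfold KK
  rw [← hM]
  have f3 : M ^ 2 * Q ^ 2 * ‖xs 0 * ys 0‖ ≤ M ^ 2 * Q ^ 2 * (p : ℝ) ^ (2 * σ - 1) := by gcongr
  calc _ ≤ M ^ 2 * Q ^ 2 * (p : ℝ) ^ (2 * σ - 1) +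
        (9 * M ^ 2 * (2 ^ n) ^ 2 + 2 ^ (n * n) + 7 * (M ^ 2 + 2 ^ (n * n)) * M ^ 2 * (2 ^ n) ^ 2) *
          Q ^ 3 := by linarith
    _ = _ := by ring

lemma lh_perm {k : ℕ} (a b : Fin k → ℂ) (τ : Equiv.Perm (Fin k)) (p : ℕ) :
    lh (fun j => a (τ j)) (fun j => b (τ j)) p = lh a b p := by
  unfold lh lt
  congr 1
  · rw [← Equiv.prod_comp τ (fun j => ∏ l, (1 - (p : ℂ) ^ (-(1 + I * a j - I * b l))))]
    refine Finset.prod_congr rfl fun j _ => ?_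
    rw [← Equiv.prod_comp τ (fun l => (1 - (p : ℂ) ^ (-(1 + I * a (τ j) - I * b l))))]
  · refine tsum_congr fun m => ?_
    rw [← tau_perm (fun j => I * b j) τ, ← tau_perm (fun j => -(I * a j)) τ]

theorem t_FD : S_FD := by
  intro k σ η hη0 hησ hση hη
  rcases k with _ | n
  · exact ⟨1, 1, one_pos, one_pos, fun j => j.elim0⟩
  set K : ℝ := (MM n ((2 : ℝ) ^ (η - 1 / 2))) ^ 2 with hK
  have hK0 : 0 ≤ K := by positivity
  have hM0 : 0 ≤ MM n ((2 : ℝ) ^ (η - 1 / 2)) := MM_nonneg n (by positivity)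
  have hKK : 0 ≤ KK n (η - 1 / 2) := by unfold KK; positivity
  refine ⟨K + KK n (η - 1 / 2) + 1, min (1 - 2 * σ - 2 * η) (1 / 2 - 3 * η), by linarith,
    lt_min (by linarith) (by linarith), fun j a b h p hp => ?_⟩
  set κ := min (1 - 2 * σ - 2 * η) (1 / 2 - 3 * η) with hκ
  have k1 : κ ≤ 1 - 2 * σ - 2 * η := min_le_left _ _
  have k2 : κ ≤ 1 / 2 - 3 * η := min_le_right _ _
  have hp1 : (1:ℝ) ≤ p := by exact_mod_cast hp.one_lt.le
  have h0 : Tj 0 σ η (fun i => a (Equiv.swap 0 j i)) (fun i => b (Equiv.swap 0 j i)) := by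
    refine ⟨?_, ?_, fun i hi => ?_⟩
    · simpa using h.1
    · simpa using h.2.1
    · refine h.2.2 _ ?_
      intro h1
      have h2 : Equiv.swap 0 j i = Equiv.swap 0 j 0 := by rw [h1, Equiv.swap_apply_left]
      exact hi ((Equiv.swap 0 j).injective h2)
  have h1 := lh_zero (by linarith) hησ (by linarith) h0 hp
  rw [lh_perm a b (Equiv.swap 0 j) p, ← hK] at h1
  refine h1.trans ?_
  have e1 : (p : ℝ) ^ (2 * η + 2 * σ - 2) ≤ (p : ℝ) ^ (-(1 + κ)) :=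
    Real.rpow_le_rpow_of_exponent_le hp1 (by linarith)
  have e2 : (p : ℝ) ^ (3 * η - 3 / 2) ≤ (p : ℝ) ^ (-(1 + κ)) :=
    Real.rpow_le_rpow_of_exponent_le hp1 (by linarith)
  have e3 : (0:ℝ) ≤ (p : ℝ) ^ (-(1 + κ)) := by positivity
  calc _ ≤ K * (p : ℝ) ^ (-(1 + κ)) + KK n (η - 1 / 2) * (p : ℝ) ^ (-(1 + κ)) := by gcongr
    _ ≤ _ := by nlinarith

end

end Pool.Agent.Y321.GP
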